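import Pool.Agent.helper73.BRZ.Spec

/-!
Row MEL of the project brz (MP_a2a22c): the contradiction from the poles of `ζ(s) ζ(s-1) ⋯ ζ(s-d+1)`.
-/

set_option autoImplicit false

namespace Pool.Agent.BRZ

open MeasureTheory Filter
open scoped Topology

/-- the transform of the weight function -/
noncomputable def MEL_P (Ψ : ℝ → ℝ) (s : ℂ) : ℂ :=
  ∫ r in Set.Ioi (0 : ℝ), (Ψ r : ℂ) * (r : ℂ) ^ (-s - 1)

theorem MEL_int {Ψ : ℝ → ℝ} (h : Wt Ψ) : Integrable Ψ := by
  by_contra hn
  have h1 := h.2.2.2.2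
  rw [integral_undef hn] at h1
  exact lt_irrefl _ h1

theorem MEL_diff {Ψ : ℝ → ℝ} (h : Wt Ψ) (s : ℂ) : DifferentiableAt ℂ (MEL_P Ψ) s := by
  have hint := MEL_int h
  obtain ⟨hm, hnn, ⟨B, hB⟩, ⟨a, b, ha, hab⟩, hpos⟩ := h
  have e : MEL_P Ψ = fun s => mellin (fun r => (Ψ r : ℂ)) (-s) := by
    funext s
    unfold MEL_P mellin
    refine setIntegral_congr_fun measurableSet_Ioi fun r _ => ?_
    simp only [smul_eq_mul, mul_comm]
  rw [e]
  have hd : DifferentiableAt ℂ (mellin fun r => (Ψ r : ℂ)) (-s) := by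
    refine mellin_differentiableAt_of_isBigO_rpow (a := (-s).re + 1) (b := (-s).re - 1)
      (hint.ofReal.locallyIntegrable.locallyIntegrableOn _) ?_ (by linarith) ?_ (by linarith)
    · have h1 : (fun r : ℝ => (Ψ r : ℂ)) =ᶠ[atTop] fun _ => 0 := by
        filter_upwards [eventually_gt_atTop b] with r hr
        have h2 : Ψ r = 0 := by
          by_contra hne
          exact absurd (hab r hne).2 (not_le.2 hr)
        simp [h2]
      exact h1.trans_isBigO (Asymptotics.isBigO_zero _ _)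
    · have h1 : (fun r : ℝ => (Ψ r : ℂ)) =ᶠ[𝓝[>] 0] fun _ => 0 := by
        filter_upwards [Ioo_mem_nhdsGT ha] with r hr
        have h2 : Ψ r = 0 := by
          by_contra hne
          exact absurd (hab r hne).1 (not_le.2 hr.2)
        simp [h2]
      exact h1.trans_isBigO (Asymptotics.isBigO_zero _ _)
  exact hd.comp s differentiableAt_id.neg

theorem MEL_ne {Ψ : ℝ → ℝ} (h : Wt Ψ) (n : ℕ) : MEL_P Ψ n ≠ 0 := by
  have hint := MEL_int h
  obtain ⟨hm, hnn, ⟨B, hB⟩, ⟨a, b, ha, hab⟩, hpos⟩ := h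
  have hb : a ≤ b := by
    by_contra hlt
    have h1 : Ψ = fun _ => 0 := by
      funext r
      by_contra hne
      exact hlt ((hab r hne).1.trans (hab r hne).2)
    rw [h1] at hpos
    simp at hpos
  have hb0 : 0 < b := lt_of_lt_of_le ha hb
  let g : ℝ → ℝ := fun r => Ψ r * r ^ (-(n : ℝ) - 1)
  have hz : -(n : ℝ) - 1 ≤ 0 := by
    have : (0 : ℝ) ≤ n := Nat.cast_nonneg n
    linarith
  have e : MEL_P Ψ n = ((∫ r in Set.Ioi (0 : ℝ), g r : ℝ) : ℂ) := by
    have e0 : ((∫ r in Set.Ioi (0 : ℝ), g r : ℝ) : ℂ) = ∫ r in Set.Ioi (0 : ℝ), ((g r : ℝ) : ℂ) :=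
      integral_ofReal.symm
    rw [e0]
    unfold MEL_P
    refine setIntegral_congr_fun measurableSet_Ioi fun r hr => ?_
    have hr' : (0 : ℝ) ≤ r := le_of_lt hr
    simp only [g, Complex.ofReal_mul, Complex.ofReal_cpow hr']
    push_cast
    rfl
  have hgm : Measurable g := hm.mul (measurable_id.pow_const _)
  have hup : ∀ r, ‖g r‖ ≤ a ^ (-(n : ℝ) - 1) * Ψ r := by
    intro r
    by_cases hr : Ψ r = 0
    · simp [g, hr]
    · have h1 := (hab r hr).1
      have h2 : r ^ (-(n : ℝ) - 1) ≤ a ^ (-(n : ℝ) - 1) :=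
        Real.rpow_le_rpow_of_nonpos ha h1 hz
      have h3 : 0 ≤ r ^ (-(n : ℝ) - 1) := Real.rpow_nonneg (ha.le.trans h1) _
      rw [Real.norm_of_nonneg (mul_nonneg (hnn r) h3), mul_comm]
      exact mul_le_mul_of_nonneg_right h2 (hnn r)
  have hlow : ∀ r, b ^ (-(n : ℝ) - 1) * Ψ r ≤ g r := by
    intro r
    by_cases hr : Ψ r = 0
    · simp [g, hr]
    · have h1 := (hab r hr)
      have h2 : b ^ (-(n : ℝ) - 1) ≤ r ^ (-(n : ℝ) - 1) :=
        Real.rpow_le_rpow_of_nonpos (lt_of_lt_of_le ha h1.1) h1.2 hz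
      simp only [g]
      rw [mul_comm (Ψ r)]
      exact mul_le_mul_of_nonneg_right h2 (hnn r)
  have hgi : Integrable g := (hint.const_mul (a ^ (-(n : ℝ) - 1))).mono'
    hgm.aestronglyMeasurable (ae_of_all _ hup)
  have h1 : (∫ r in Set.Ioi (0 : ℝ), b ^ (-(n : ℝ) - 1) * Ψ r) ≤ ∫ r in Set.Ioi (0 : ℝ), g r :=
    integral_mono (hint.const_mul _).integrableOn hgi.integrableOn hlow
  have h2 : (∫ r in Set.Ioi (0 : ℝ), Ψ r) = ∫ r, Ψ r := by
    refine setIntegral_eq_integral_of_forall_compl_eq_zero fun r hr => ?_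
    by_contra hne
    exact hr (lt_of_lt_of_le ha (hab r hne).1)
  rw [integral_const_mul, h2] at h1
  have h3 : 0 < ∫ r in Set.Ioi (0 : ℝ), g r :=
    lt_of_lt_of_le (mul_pos (Real.rpow_pos_of_pos hb0 _) hpos) h1
  rw [e]
  exact_mod_cast h3.ne'

/-- the slit half plane -/
def MEL_O (m : ℕ) : Set ℂ := {s | 0 < s.re ∧ (s.im ≠ 0 ∨ (m : ℝ) + 2 < s.re)}

theorem MEL_O_open (m : ℕ) : IsOpen (MEL_O m) := by
  have h1 : MEL_O m = {s : ℂ | 0 < s.re} ∩ ({s : ℂ | s.im ≠ 0} ∪ {s : ℂ | (m : ℝ) + 2 < s.re}) := by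
    ext s
    rfl
  rw [h1]
  exact (isOpen_lt continuous_const Complex.continuous_re).inter
    ((isOpen_ne_fun Complex.continuous_im continuous_const).union
      (isOpen_lt continuous_const Complex.continuous_re))

theorem MEL_O_star (m : ℕ) : StarConvex ℝ (((m : ℝ) + 3 : ℝ) : ℂ) (MEL_O m) := by
  intro y hy a b ha hb hab
  have hm : (0 : ℝ) ≤ m := Nat.cast_nonneg m
  have hre : (a • (((m : ℝ) + 3 : ℝ) : ℂ) + b • y).re = a * (m + 3) + b * y.re := by
    rw [Complex.add_re, Complex.smul_re, Complex.smul_re, Complex.ofReal_re, smul_eq_mul,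
      smul_eq_mul]
  have him : (a • (((m : ℝ) + 3 : ℝ) : ℂ) + b • y).im = b * y.im := by
    simp
  obtain ⟨hy1, hy2⟩ := hy
  show 0 < (a • (((m : ℝ) + 3 : ℝ) : ℂ) + b • y).re ∧
    ((a • (((m : ℝ) + 3 : ℝ) : ℂ) + b • y).im ≠ 0 ∨
      (m : ℝ) + 2 < (a • (((m : ℝ) + 3 : ℝ) : ℂ) + b • y).re)
  rw [hre, him]
  rcases hb.eq_or_lt with hb0 | hb0
  · have ha1 : a = 1 := by linarith
    subst ha1
    rw [← hb0]
    exact ⟨by linarith, Or.inr (by linarith)⟩
  · have h1 : 0 < b * y.re := mul_pos hb0 hy1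
    have h2 : 0 ≤ a * ((m : ℝ) + 3) := mul_nonneg ha (by linarith)
    refine ⟨by linarith, ?_⟩
    rcases hy2 with h3 | h3
    · exact Or.inl (mul_ne_zero hb0.ne' h3)
    · right
      have h4 : b * ((m : ℝ) + 2) < b * y.re := mul_lt_mul_of_pos_left h3 hb0
      have h5 : a * ((m : ℝ) + 2) ≤ a * ((m : ℝ) + 3) := mul_le_mul_of_nonneg_left (by linarith) ha
      have h6 : (m : ℝ) + 2 = a * ((m : ℝ) + 2) + b * ((m : ℝ) + 2) := by
        rw [← add_mul, hab, one_mul]
      linarith

theorem MEL_O_ne (m : ℕ) {s : ℂ} (hs : s ∈ MEL_O m) (k : ℕ) (hk : k ≤ m + 2) : s ≠ k := by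
  rintro rfl
  rcases hs.2 with h | h
  · exact h (Complex.natCast_im k)
  · rw [Complex.natCast_re] at h
    have : (k : ℝ) ≤ m + 2 := by exact_mod_cast hk
    linarith

theorem MEL (hLSC : LSC_stmt) (hMEA : MEA_stmt) : MEL_stmt := by
  intro d hd Ψ hΨ C K hbad
  obtain ⟨m, rfl⟩ : ∃ m, d = m + 2 := ⟨d - 2, by omega⟩
  obtain ⟨H, hH, hHe⟩ := hMEA (m + 2) (by omega) Ψ hΨ C K
    (fun s hs => (hLSC (m + 2) s hs).1) hbad
  let G : ℂ → ℂ := fun s => (∏ i ∈ Finset.range (m + 2), riemannZeta (s - i)) * MEL_P Ψ s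
  have hGd : DifferentiableOn ℂ G (MEL_O m) := by
    intro s hs
    refine DifferentiableAt.differentiableWithinAt ?_
    refine DifferentiableAt.mul ?_ (MEL_diff hΨ s)
    refine DifferentiableAt.fun_finsetProd fun i hi => ?_
    have hi' : i < m + 2 := Finset.mem_range.1 hi
    have hne : s - i ≠ 1 := by
      intro h
      have h1 : s = ((i + 1 : ℕ) : ℂ) := by
        push_cast
        linear_combination h
      exact MEL_O_ne m hs (i + 1) (by omega) h1
    exact (differentiableAt_riemannZeta hne).comp s (differentiableAt_id.sub_const _)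
  have hHd : DifferentiableOn ℂ H (MEL_O m) := by
    refine hH.mono fun s hs => ⟨hs.1, ?_⟩
    exact_mod_cast MEL_O_ne m hs (m + 2) le_rfl
  have hx0 : (((m : ℝ) + 3 : ℝ) : ℂ) ∈ MEL_O m := by
    have hm : (0 : ℝ) ≤ m := Nat.cast_nonneg m
    refine ⟨?_, Or.inr ?_⟩
    · rw [Complex.ofReal_re]
      linarith
    · rw [Complex.ofReal_re]
      linarith
  have hpre : IsPreconnected (MEL_O m) :=
    ((MEL_O_star m).isPathConnected hx0).isConnected.isPreconnected
  have hev : G =ᶠ[𝓝 (((m : ℝ) + 3 : ℝ) : ℂ)] H := by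
    have h1 : {s : ℂ | (m : ℝ) + 2 < s.re} ∈ 𝓝 (((m : ℝ) + 3 : ℝ) : ℂ) := by
      refine (isOpen_lt continuous_const Complex.continuous_re).mem_nhds ?_
      show (m : ℝ) + 2 < ((((m : ℝ) + 3 : ℝ) : ℂ)).re
      rw [Complex.ofReal_re]
      linarith
    filter_upwards [h1] with s hs
    have hs' : ((m + 2 : ℕ) : ℝ) < s.re := by
      push_cast
      exact hs
    rw [hHe s hs', (hLSC (m + 2) s hs').2]
    rfl
  have heq : Set.EqOn G H (MEL_O m) :=
    (hGd.analyticOnNhd (MEL_O_open m)).eqOn_of_preconnected_of_eventuallyEq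
      (hHd.analyticOnNhd (MEL_O_open m)) hpre hx0 hev
  -- the limits at `m + 1`
  let p : ℂ := ((m + 1 : ℕ) : ℂ)
  have hp : p = (m : ℂ) + 1 := by simp [p]
  have hT2 : Tendsto (fun s => (s - p) * H s) (𝓝[≠] p) (𝓝 0) := by
    have h1 : IsOpen {s : ℂ | 0 < s.re ∧ s ≠ ((m + 2 : ℕ) : ℂ)} :=
      (isOpen_lt continuous_const Complex.continuous_re).inter isOpen_ne
    have h2 : p ∈ {s : ℂ | 0 < s.re ∧ s ≠ ((m + 2 : ℕ) : ℂ)} := by
      refine ⟨?_, ?_⟩
      · show 0 < (((m + 1 : ℕ) : ℂ)).re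
        rw [Complex.natCast_re]
        exact_mod_cast Nat.succ_pos m
      · show ((m + 1 : ℕ) : ℂ) ≠ ((m + 2 : ℕ) : ℂ)
        exact_mod_cast (by omega : m + 1 ≠ m + 2)
    have h3 : ContinuousAt H p := ((hH.differentiableAt (h1.mem_nhds h2))).continuousAt
    have h4 : ContinuousAt (fun s : ℂ => (s - p) * H s) p :=
      (continuousAt_id.sub continuousAt_const).mul h3
    have h5 := h4.tendsto
    simp only [id_eq, sub_self, zero_mul] at h5
    exact h5.mono_left nhdsWithin_le_nhds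
  let L : ℂ := (∏ i ∈ Finset.range m, riemannZeta (p - i)) * 1 * riemannZeta 0 * MEL_P Ψ p
  have hT1 : Tendsto (fun s => (s - p) * G s) (𝓝[≠] p) (𝓝 L) := by
    have e1 : (fun s => (s - p) * G s) = fun s =>
        (∏ i ∈ Finset.range m, riemannZeta (s - i)) * ((s - m - 1) * riemannZeta (s - m)) *
          riemannZeta (s - p) * MEL_P Ψ s := by
      funext s
      simp only [G]
      rw [Finset.prod_range_succ, Finset.prod_range_succ]
      rw [hp]
      push_cast
      ring
    rw [e1]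
    refine Tendsto.mul (Tendsto.mul (Tendsto.mul ?_ ?_) ?_) ?_
    · refine tendsto_finset_prod _ fun i hi => ?_
      have hi' : i < m := Finset.mem_range.1 hi
      have hne : p - i ≠ 1 := by
        intro h
        have h1 : ((m + 1 : ℕ) : ℂ) = ((i + 1 : ℕ) : ℂ) := by
          push_cast
          rw [hp] at h
          linear_combination h
        have h2 : m + 1 = i + 1 := by exact_mod_cast h1
        omega
      have h3 : ContinuousAt (fun s : ℂ => riemannZeta (s - i)) p :=
        ContinuousAt.comp (f := fun s : ℂ => s - i) (g := riemannZeta)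
          (differentiableAt_riemannZeta hne).continuousAt (continuousAt_id.sub continuousAt_const)
      exact h3.tendsto.mono_left nhdsWithin_le_nhds
    · have h1 : Tendsto (fun s : ℂ => s - m) (𝓝[≠] p) (𝓝[≠] 1) := by
        refine tendsto_nhdsWithin_iff.2 ⟨?_, ?_⟩
        · have h2 : ContinuousAt (fun s : ℂ => s - m) p :=
            continuousAt_id.sub continuousAt_const
          have h3 : Tendsto (fun s : ℂ => s - m) (𝓝 p) (𝓝 (p - m)) := h2
          rw [hp] at h3
          rw [add_sub_cancel_left] at h3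
          rw [hp]
          exact h3.mono_left nhdsWithin_le_nhds
        · filter_upwards [self_mem_nhdsWithin] with s hs h
          apply hs
          show s = p
          rw [hp]
          have h' : s - m = 1 := h
          linear_combination h'
      exact riemannZeta_residue_one.comp h1
    · have h2 : ContinuousAt (fun s : ℂ => riemannZeta (s - p)) p := by
        refine ContinuousAt.comp (f := fun s : ℂ => s - p) (g := riemannZeta) ?_
          (continuousAt_id.sub continuousAt_const)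
        rw [sub_self]
        exact (differentiableAt_riemannZeta zero_ne_one).continuousAt
      have h3 := h2.tendsto
      simp only [sub_self] at h3
      exact h3.mono_left nhdsWithin_le_nhds
    · exact (MEL_diff hΨ p).continuousAt.tendsto.mono_left nhdsWithin_le_nhds
  have hL : L ≠ 0 := by
    refine mul_ne_zero (mul_ne_zero (mul_ne_zero ?_ one_ne_zero) ?_) (MEL_ne hΨ (m + 1))
    · refine Finset.prod_ne_zero_iff.2 fun i hi => ?_
      have hi' : i < m := Finset.mem_range.1 hi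
      refine riemannZeta_ne_zero_of_one_lt_re ?_
      rw [hp]
      simp only [Complex.sub_re, Complex.add_re, Complex.natCast_re, Complex.one_re]
      have h1 : (i : ℝ) + 1 ≤ m := by exact_mod_cast hi'
      linarith
    · rw [riemannZeta_zero]
      norm_num
  -- approach along the vertical line
  let γ : ℝ → ℂ := fun τ => p + τ * Complex.I
  have hγ : Tendsto γ (𝓝[≠] 0) (𝓝[≠] p) := by
    refine tendsto_nhdsWithin_iff.2 ⟨?_, ?_⟩
    · have h1 : Continuous γ := continuous_const.add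
        (Complex.continuous_ofReal.mul continuous_const)
      have h2 := h1.tendsto 0
      simp only [γ, Complex.ofReal_zero, zero_mul, add_zero] at h2
      exact h2.mono_left nhdsWithin_le_nhds
    · filter_upwards [self_mem_nhdsWithin] with τ hτ h
      have h1 : p + τ * Complex.I = p := h
      have h2 : (τ : ℂ) * Complex.I = 0 := by linear_combination h1
      rcases mul_eq_zero.1 h2 with h3 | h3
      · exact hτ (Complex.ofReal_eq_zero.1 h3)
      · exact Complex.I_ne_zero h3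
  have hmem : ∀ τ : ℝ, τ ≠ 0 → γ τ ∈ MEL_O m := by
    intro τ hτ
    refine ⟨?_, Or.inl ?_⟩
    · simp only [γ, p]
      simp
      positivity
    · simp only [γ, p]
      simpa using hτ
  have h1 := (hT1.comp hγ)
  have h2 := (hT2.comp hγ)
  have h3 : (fun s => (s - p) * G s) ∘ γ =ᶠ[𝓝[≠] (0 : ℝ)] (fun s => (s - p) * H s) ∘ γ := by
    filter_upwards [self_mem_nhdsWithin] with τ hτ
    simp only [Function.comp]
    rw [heq (hmem τ hτ)]
  exact hL (tendsto_nhds_unique (h1.congr' h3) h2)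

end Pool.Agent.BRZ
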